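import Mathlib

/-!
# RZN / Ineq : sets `A` in `Z_m` with `1 ≤ σ_A ≤ R` (MP_40163f_nt)

`main_ineq`: `(2R-6) m + 6 ≤ (R-4)|A|^2 + (R+4)|A|`.
Proof: `σ` is even outside `2A`, so `(σ-2)(R-σ) ≥ 0` there; `∑ σ^2 = ∑ r^2` for the difference function `r`, which is integer valued, so
`r^2 ≥ 5 r - 6`, and `r 0 = |A|`.
-/

set_option autoImplicit false

namespace Pool.Agent.RZN

open Finset

variable {m : ℕ} [NeZero m]

/-- the number of ordered pairs of elements of `A` with sum `n` -/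
def sig (A : Finset (ZMod m)) (n : ZMod m) : ℕ :=
  ((A ×ˢ A).filter (fun p => p.1 + p.2 = n)).card

/-- the number of ordered pairs of elements of `A` with difference `d` -/
def dif (A : Finset (ZMod m)) (d : ZMod m) : ℕ :=
  ((A ×ˢ A).filter (fun p => p.1 - p.2 = d)).card

theorem sum_sig (A : Finset (ZMod m)) : ∑ n, sig A n = A.card ^ 2 := by
  unfold sig
  rw [← card_eq_sum_card_fiberwise (fun _ _ => mem_univ _), card_product, sq]

theorem sum_dif (A : Finset (ZMod m)) : ∑ d, dif A d = A.card ^ 2 := by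
  unfold dif
  rw [← card_eq_sum_card_fiberwise (fun _ _ => mem_univ _), card_product, sq]

theorem sum_sq {α β : Type*} [DecidableEq α] [Fintype β] [DecidableEq β] (P : Finset α)
    (f : α → β) :
    ∑ n, (P.filter (fun p => f p = n)).card ^ 2 =
      ((P ×ˢ P).filter (fun q => f q.1 = f q.2)).card := by
  rw [card_eq_sum_card_fiberwise (f := fun q => f q.1) (t := univ) (fun _ _ => mem_univ _)]
  refine sum_congr rfl fun n _ => ?_
  rw [sq, ← card_product]
  congr 1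
  ext q
  simp only [mem_product, mem_filter]
  constructor
  · rintro ⟨⟨h1, h2⟩, h3, h4⟩
    exact ⟨⟨⟨h1, h3⟩, h2.trans h4.symm⟩, h2⟩
  · rintro ⟨⟨⟨h1, h3⟩, h2⟩, h4⟩
    exact ⟨⟨h1, h4⟩, h3, h2.symm.trans h4⟩

theorem energy (A : Finset (ZMod m)) : ∑ n, sig A n ^ 2 = ∑ d, dif A d ^ 2 := by
  unfold sig dif
  rw [sum_sq (A ×ˢ A) (fun p => p.1 + p.2), sum_sq (A ×ˢ A) (fun p => p.1 - p.2)]
  refine card_bij' (fun q _ => ((q.1.1, q.2.2), (q.2.1, q.1.2)))
    (fun q _ => ((q.1.1, q.2.2), (q.2.1, q.1.2))) ?_ ?_ ?_ ?_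
  · intro q hq
    simp only [mem_filter, mem_product] at hq ⊢
    obtain ⟨⟨⟨h1, h2⟩, h3, h4⟩, h5⟩ := hq
    exact ⟨⟨⟨h1, h4⟩, h3, h2⟩, by linear_combination h5⟩
  · intro q hq
    simp only [mem_filter, mem_product] at hq ⊢
    obtain ⟨⟨⟨h1, h2⟩, h3, h4⟩, h5⟩ := hq
    exact ⟨⟨⟨h1, h4⟩, h3, h2⟩, by linear_combination h5⟩
  · intro q _
    rfl
  · intro q _
    rfl

theorem dif_zero (A : Finset (ZMod m)) : dif A 0 = A.card := by
  unfold dif
  rw [← card_image_of_injective A (f := fun a => (a, a)) (fun a b h => (Prod.mk.inj h).1)]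
  congr 1
  ext q
  simp only [mem_filter, mem_product, mem_image, sub_eq_zero]
  constructor
  · rintro ⟨⟨h1, -⟩, h3⟩
    exact ⟨q.1, h1, Prod.ext rfl h3⟩
  · rintro ⟨a, ha, rfl⟩
    exact ⟨⟨ha, ha⟩, rfl⟩

theorem sig_even (A : Finset (ZMod m)) (n : ZMod m) (h : ∀ a ∈ A, a + a ≠ n) :
    Even (sig A n) := by
  have h1 : ∑ _p ∈ (A ×ˢ A).filter (fun p => p.1 + p.2 = n), (1 : ZMod 2) = 0 := by
    refine sum_involution (fun p _ => (p.2, p.1)) (fun _ _ => by decide) (fun p hp _ => ?_)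
      (fun p hp => ?_) (fun _ _ => rfl)
    · intro h2
      simp only [mem_filter, mem_product] at hp
      have h3 : p.2 = p.1 := congrArg Prod.fst h2
      exact h p.1 hp.1.1 (by rw [← hp.2, h3])
    · simp only [mem_filter, mem_product] at hp ⊢
      exact ⟨⟨hp.1.2, hp.1.1⟩, by rw [add_comm]; exact hp.2⟩
  rw [sum_const, nsmul_eq_mul, mul_one] at h1
  exact (ZMod.natCast_eq_zero_iff_even).1 h1

theorem main_ineq (A : Finset (ZMod m)) (R : ℕ) (hR : 1 ≤ R)
    (h : ∀ n, 1 ≤ sig A n ∧ sig A n ≤ R) :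
    (2 * (R : ℤ) - 6) * m + 6 ≤ ((R : ℤ) - 4) * (A.card : ℤ) ^ 2 + ((R : ℤ) + 4) * A.card := by
  have hm : (Fintype.card (ZMod m) : ℤ) = m := by rw [ZMod.card]
  -- upper bound for `∑ σ^2`
  have h1 : ∑ n, (((sig A n : ℤ) - 2) * ((R : ℤ) - sig A n)) ≥
      ∑ n, (if n ∈ A.image (fun a => a + a) then -((R : ℤ) - 1) else 0) := by
    refine sum_le_sum fun n _ => ?_
    obtain ⟨g1, g2⟩ := h n
    have g1' : (1 : ℤ) ≤ sig A n := by exact_mod_cast g1
    have g2' : (sig A n : ℤ) ≤ R := by exact_mod_cast g2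
    have hR' : (1 : ℤ) ≤ R := by exact_mod_cast hR
    split_ifs with hn
    · rcases eq_or_lt_of_le g1' with h5 | h5
      · rw [← h5]; linarith
      · have h6 : (0 : ℤ) ≤ (sig A n : ℤ) - 2 := by linarith
        have h7 : (0 : ℤ) ≤ (R : ℤ) - sig A n := by linarith
        nlinarith [mul_nonneg h6 h7]
    · have hev : Even (sig A n) := sig_even A n fun a ha h3 => hn (mem_image.2 ⟨a, ha, h3⟩)
      obtain ⟨k, hk⟩ := hev
      have h6 : (0 : ℤ) ≤ (sig A n : ℤ) - 2 := by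
        have : 2 ≤ sig A n := by omega
        have : (2 : ℤ) ≤ sig A n := by exact_mod_cast this
        linarith
      have h7 : (0 : ℤ) ≤ (R : ℤ) - sig A n := by linarith
      exact mul_nonneg h6 h7
  have h2 : ∑ n, (if n ∈ A.image (fun a => a + a) then -((R : ℤ) - 1) else 0) ≥
      -((R : ℤ) - 1) * A.card := by
    rw [← sum_filter, sum_const, nsmul_eq_mul]
    have hc : (univ.filter (fun n => n ∈ A.image (fun a => a + a))).card ≤ A.card := by
      rw [filter_mem_eq_inter, univ_inter]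
      exact card_image_le
    have hc' : ((univ.filter (fun n => n ∈ A.image (fun a => a + a))).card : ℤ) ≤ A.card := by
      exact_mod_cast hc
    have hR' : (1 : ℤ) ≤ R := by exact_mod_cast hR
    nlinarith
  have s1 : ∑ n, (sig A n : ℤ) = (A.card : ℤ) ^ 2 := by exact_mod_cast sum_sig A
  have s2 : ∑ d, (dif A d : ℤ) = (A.card : ℤ) ^ 2 := by exact_mod_cast sum_dif A
  have s3 : ∑ n, (sig A n : ℤ) ^ 2 = ∑ d, (dif A d : ℤ) ^ 2 := by exact_mod_cast energy A
  have h3 : ∑ n, (((sig A n : ℤ) - 2) * ((R : ℤ) - sig A n)) =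
      ((R : ℤ) + 2) * (A.card : ℤ) ^ 2 - ∑ n, (sig A n : ℤ) ^ 2 - 2 * R * m := by
    have : ∀ n, (((sig A n : ℤ) - 2) * ((R : ℤ) - sig A n)) =
        ((R : ℤ) + 2) * (sig A n : ℤ) - (sig A n : ℤ) ^ 2 - 2 * R := fun n => by ring
    rw [sum_congr rfl fun n _ => this n, sum_sub_distrib, sum_sub_distrib, ← mul_sum, s1,
      sum_const, card_univ, nsmul_eq_mul, hm]
    ring
  -- lower bound for `∑ r^2`
  have h4 : ∑ d, (dif A d : ℤ) ^ 2 ≥ 6 * (A.card : ℤ) ^ 2 - 5 * A.card - 6 * m + 6 := by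
    have e1 := add_sum_erase univ (fun d => (dif A d : ℤ) ^ 2) (mem_univ (0 : ZMod m))
    have e2 := add_sum_erase univ (fun d => (dif A d : ℤ)) (mem_univ (0 : ZMod m))
    have e3 : ∑ d ∈ univ.erase (0 : ZMod m), (5 * (dif A d : ℤ) - 6) ≤
        ∑ d ∈ univ.erase (0 : ZMod m), (dif A d : ℤ) ^ 2 := by
      refine sum_le_sum fun d _ => ?_
      have : (0 : ℤ) ≤ ((dif A d : ℤ) - 2) * ((dif A d : ℤ) - 3) := by
        rcases le_or_gt (dif A d : ℤ) 2 with h5 | h5
        · exact mul_nonneg_of_nonpos_of_nonpos (by linarith) (by linarith)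
        · exact mul_nonneg (by linarith) (by linarith)
      nlinarith
    rw [sum_sub_distrib, ← mul_sum, sum_const, card_erase_of_mem (mem_univ _), card_univ,
      ZMod.card, nsmul_eq_mul] at e3
    have hm1 : 1 ≤ m := Nat.one_le_iff_ne_zero.2 (NeZero.ne m)
    rw [Nat.cast_sub hm1] at e3
    simp only [dif_zero] at e1 e2
    rw [s2] at e2
    push_cast at e3
    nlinarith
  nlinarith

end Pool.Agent.RZN
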